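import Pool.Agent.V11105.BTe

set_option autoImplicit false

namespace Pool.Agent.Results.MP_ce4ed9_an.TransitiveNotLEOCountable

/-- The space `X = [0,1)` with the subspace topology of `ℝ`. -/
abbrev X : Type := Set.Ico (0 : ℝ) 1

/-- The map `T_{α,β}(x) = βx + α (mod 1)` on `X`. -/
noncomputable def T (α β : ℝ) (x : X) : X :=
  ⟨Int.fract (β * (x : ℝ) + α), Int.fract_nonneg _, Int.fract_lt_one _⟩

/-- Topological transitivity. -/
def Transitive (f : X → X) : Prop :=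
  ∀ U V : Set X, IsOpen U → U.Nonempty → IsOpen V → V.Nonempty →
    ∃ n : ℕ, 1 ≤ n ∧ ((f^[n] '' U) ∩ V).Nonempty

/-- Topologically LEO (locally eventually onto). -/
def LEO (f : X → X) : Prop :=
  ∀ U : Set X, IsOpen U → U.Nonempty → ∃ n : ℕ, 1 ≤ n ∧ f^[n] '' U = Set.univ

/-- The set of parameters `(α, β)` of the triangle for which `T_{α,β}` is topologically
transitive but not topologically LEO. -/
def E : Set (ℝ × ℝ) :=
  {p | 1 < p.2 ∧ p.2 ≤ 2 ∧ 0 ≤ p.1 ∧ p.1 + p.2 ≤ 2 ∧ Transitive (T p.1 p.2) ∧ ¬ LEO (T p.1 p.2)}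

/-- The point `0` of `X`. -/
def zero : X := ⟨0, le_rfl, one_pos⟩

theorem coe_iter (α β : ℝ) (n : ℕ) (x : X) :
    (((T α β)^[n] x : X) : ℝ) = (Pool.Agent.V11105.BT.T α β)^[n] (x : ℝ) := by
  induction n with
  | zero => rfl
  | succ n ih =>
    rw [Function.iterate_succ_apply', Function.iterate_succ_apply', ← ih]
    rfl

theorem trans_of (α β : ℝ) (h : Transitive (T α β)) : Pool.Agent.V11105.BT.Trans α β := by
  intro a b a' b' ha hab hb ha' hab' hb'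
  have hopen : ∀ c d : ℝ, IsOpen {x : X | c < (x : ℝ) ∧ (x : ℝ) < d} := by
    intro c d
    exact isOpen_Ioo.preimage continuous_subtype_val
  have hne : ∀ c d : ℝ, 0 ≤ c → c < d → d ≤ 1 → {x : X | c < (x : ℝ) ∧ (x : ℝ) < d}.Nonempty := by
    intro c d hc hcd hd
    refine ⟨⟨(c + d) / 2, by linarith, by linarith⟩, ?_, ?_⟩
    · show c < (c + d) / 2
      linarith
    · show (c + d) / 2 < d
      linarith
  obtain ⟨n, _, y, ⟨x, hx, rfl⟩, hy⟩ := h _ _ (hopen a b) (hne a b ha hab hb) (hopen a' b')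
    (hne a' b' ha' hab' hb')
  refine ⟨n, x, hx.1, hx.2, ?_, ?_⟩
  · rw [← coe_iter]; exact hy.1
  · rw [← coe_iter]; exact hy.2

theorem leo_of (α β : ℝ) (h : ∀ a b : ℝ, 0 ≤ a → a < b → b ≤ 1 → ∃ n : ℕ, 1 ≤ n ∧
    Set.Ico (0:ℝ) 1 ⊆ (Pool.Agent.V11105.BT.T α β)^[n] '' Set.Ico a b) : LEO (T α β) := by
  rintro U hU ⟨x, hx⟩
  rw [Metric.isOpen_iff] at hU
  obtain ⟨ε, hε, hsub⟩ := hU x hx
  obtain ⟨n, hn, hcov⟩ := h x (min (x + ε) 1) x.2.1 (lt_min (by linarith) x.2.2) (min_le_right _ _)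
  refine ⟨n, hn, Set.eq_univ_of_forall ?_⟩
  intro y
  obtain ⟨z, ⟨hz1, hz2⟩, hz3⟩ := hcov y.2
  have hz4 := lt_min_iff.1 hz2
  have hz : z ∈ Set.Ico (0 : ℝ) 1 := ⟨by linarith [x.2.1], hz4.2⟩
  refine ⟨⟨z, hz⟩, hsub ?_, ?_⟩
  · rw [Metric.mem_ball, Subtype.dist_eq, Real.dist_eq, abs_lt]
    constructor
    · show -ε < z - (x : ℝ)
      linarith
    · show z - (x : ℝ) < ε
      linarith [hz4.1]
  · apply Subtype.ext
    rw [coe_iter]
    exact hz3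

theorem exc_of (p : ℝ × ℝ) (hp : p ∈ E) :
    Pool.Agent.V11105.BT.Par p.1 p.2 ∧ Pool.Agent.V11105.BT.Exc p.1 p.2 := by
  obtain ⟨h1, h2, h3, h4, h5, h6⟩ := hp
  have hpar : Pool.Agent.V11105.BT.Par p.1 p.2 := ⟨h1, h3, h4⟩
  refine ⟨hpar, ?_⟩
  by_contra hx
  have htr := trans_of _ _ h5
  exact h6 (leo_of _ _ (Pool.Agent.V11105.BT.leo hpar htr
    (Pool.Agent.V11105.BT.noD_of_not_exc hpar htr hx)))

/-- `E` is countable; moreover for `(α, β) ∈ E` there is `q ≥ 1` with `β^q = 2` and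
`T^q(T(0)) = T(0)`. -/
theorem result : E.Countable ∧
    ∀ p ∈ E, ∃ q : ℕ, 1 ≤ q ∧ p.2 ^ q = 2 ∧ (T p.1 p.2)^[q + 1] zero = T p.1 p.2 zero := by
  refine ⟨Pool.Agent.V11105.BT.exc_countable.mono (fun p hp => exc_of p hp), ?_⟩
  intro p hp
  obtain ⟨hpar, q, hq1, hq2, hq3⟩ := exc_of p hp
  refine ⟨q, hq1, hq2, ?_⟩
  have h0 : ((T p.1 p.2 zero : X) : ℝ) = p.1 := by
    show Int.fract (p.2 * (0 : ℝ) + p.1) = p.1
    rw [mul_zero, zero_add, Int.fract_eq_self]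
    have := hpar.b1
    have := hpar.ab
    exact ⟨hpar.a0, by linarith⟩
  apply Subtype.ext
  rw [Function.iterate_succ_apply, coe_iter, h0, hq3]

end Pool.Agent.Results.MP_ce4ed9_an.TransitiveNotLEOCountable
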